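import Mathlib

/-!
# Commutative differential graded algebras, Poincaré duality, semi-trivial mapping cones
-/

set_option autoImplicit false

namespace Pool.Agent.V11212.PM

/-- The sign `(-1)^k`. -/
def sg (k : ℤ) : ℚ := if Even k then 1 else -1

/-- A commutative differential graded algebra over `ℚ`, with cohomological (integer) grading. -/
structure CDGA where
  /-- the underlying total space -/
  C : Type
  [ring : Ring C]
  [algebra : Algebra ℚ C]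
  /-- the homogeneous parts -/
  gr : ℤ → Submodule ℚ C
  internal : DirectSum.IsInternal gr
  one_mem : (1 : C) ∈ gr 0
  mul_mem : ∀ {i j : ℤ} {a b : C}, a ∈ gr i → b ∈ gr j → a * b ∈ gr (i + j)
  comm : ∀ {i j : ℤ} {a b : C}, a ∈ gr i → b ∈ gr j → a * b = sg (i * j) • (b * a)
  /-- the differential -/
  d : C →ₗ[ℚ] C
  d_mem : ∀ {i : ℤ} {a : C}, a ∈ gr i → d a ∈ gr (i + 1)
  d_d : ∀ a : C, d (d a) = 0
  leibniz : ∀ {i : ℤ} {a : C} (b : C), a ∈ gr i → d (a * b) = d a * b + sg i • (a * d b)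

attribute [instance] CDGA.ring CDGA.algebra

namespace CDGA

/-- The homogeneous cycles of degree `i`. -/
def Cyc (A : CDGA) (i : ℤ) (a : A.C) : Prop := a ∈ A.gr i ∧ A.d a = 0

/-- The boundaries of degree `i`. -/
def IsBd (A : CDGA) (i : ℤ) (a : A.C) : Prop := ∃ c ∈ A.gr (i - 1), A.d c = a

/-- No elements in negative degrees. -/
def Nonneg (A : CDGA) : Prop := ∀ i < 0, A.gr i = ⊥

end CDGA

/-- Morphisms of CDGAs. -/
structure Hom (A B : CDGA) where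
  /-- the underlying algebra map -/
  f : A.C →ₐ[ℚ] B.C
  map_gr : ∀ {i : ℤ} {a : A.C}, a ∈ A.gr i → f a ∈ B.gr i
  map_d : ∀ a : A.C, f (A.d a) = B.d (f a)

/-- A morphism is a quasi-isomorphism if it is injective and surjective on homology in each
degree. -/
def Hom.IsQuasiIso {A B : CDGA} (f : Hom A B) : Prop :=
  ∀ i : ℤ, (∀ a, A.Cyc i a → B.IsBd i (f.f a) → A.IsBd i a) ∧
    ∀ b, B.Cyc i b → ∃ a, A.Cyc i a ∧ B.IsBd i (b - f.f a)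

/-- Two CDGAs are quasi-isomorphic if they are joined by a zigzag of quasi-isomorphisms. -/
def QuasiIsomorphic : CDGA → CDGA → Prop :=
  Relation.EqvGen fun A B => ∃ f : Hom A B, f.IsQuasiIso

/-- The homology of `A` satisfies Poincaré duality in dimension `m`, the functional `ε` giving
the isomorphism `H^m(A) ≅ ℚ`: the homology is finite-dimensional, `H^0 = ℚ`, and the pairings
`H^i × H^{m-i} → H^m ≅ ℚ` are nondegenerate. -/
structure PoincareDuality (A : CDGA) (m : ℤ) (ε : A.C →ₗ[ℚ] ℚ) : Prop where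
  finite : ∃ W : Submodule ℚ A.C, FiniteDimensional ℚ W ∧
    ∀ i a, A.Cyc i a → ∃ w ∈ W, A.Cyc i w ∧ A.IsBd i (a - w)
  connected : (∀ a, A.Cyc 0 a → ∃ c : ℚ, A.IsBd 0 (a - c • (1 : A.C))) ∧ ¬ A.IsBd 0 1
  eps_d : ∀ a, ε (A.d a) = 0
  eps_gr : ∀ i, i ≠ m → ∀ a ∈ A.gr i, ε a = 0
  nondeg : ∀ i a, A.Cyc i a → (∀ b, A.Cyc (m - i) b → ε (a * b) = 0) → A.IsBd i a

/-- The signature vanishes: if `m = 4 k`, the middle homology has a basis, orthogonal for the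
form `ε(ab)`, with as many vectors of positive as of negative square. -/
def ZeroSignature (A : CDGA) (m : ℤ) (ε : A.C →ₗ[ℚ] ℚ) : Prop :=
  ∀ k : ℤ, m = 4 * k → ∃ (r : ℕ) (e : Fin r ⊕ Fin r → A.C), (∀ s, A.Cyc (2 * k) (e s)) ∧
    (∀ s t, s ≠ t → ε (e s * e t) = 0) ∧
    (∀ s, 0 < ε (e (Sum.inl s) * e (Sum.inl s))) ∧
    (∀ s, ε (e (Sum.inr s) * e (Sum.inr s)) < 0) ∧
    ∀ a, A.Cyc (2 * k) a → ∃ c : Fin r ⊕ Fin r → ℚ, A.IsBd (2 * k) (a - ∑ s, c s • e s)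

/-- The linear functionals on the total space of `Q`. -/
def Fn (Q : CDGA) : Type := Module.Dual ℚ Q.C

noncomputable instance (Q : CDGA) : AddCommGroup (Fn Q) :=
  inferInstanceAs (AddCommGroup (Module.Dual ℚ Q.C))

noncomputable instance (Q : CDGA) : Module ℚ (Fn Q) :=
  inferInstanceAs (Module ℚ (Module.Dual ℚ Q.C))

/-- The value of a functional. -/
def Fn.ev {Q : CDGA} (φ : Fn Q) (x : Q.C) : ℚ := (show Module.Dual ℚ Q.C from φ) x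

/-- The functional `φ` is in the degree `p` part of `s^{-n} # Q`: it is supported on
`Q^{n-p}`. -/
def InDeg (Q : CDGA) (n p : ℤ) (φ : Fn Q) : Prop :=
  ∀ i, i ≠ n - p → ∀ x ∈ Q.gr i, φ.ev x = 0

/-- The right action of `Q` on functionals, `(φ q)(x) = φ(q x)`. -/
def act {Q : CDGA} (φ : Fn Q) (q : Q.C) : Fn Q :=
  (show Module.Dual ℚ Q.C from φ) ∘ₗ LinearMap.mulLeft ℚ q

/-- The functional `x ↦ φ(d x)`. -/
def dd {Q : CDGA} (φ : Fn Q) : Fn Q := (show Module.Dual ℚ Q.C from φ) ∘ₗ Q.d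

/-- The map `Ψ` preserves degrees. -/
def PsiDeg (Q : CDGA) (n : ℤ) (Ψ : Fn Q →ₗ[ℚ] Q.C) : Prop :=
  ∀ (p : ℤ) (φ : Fn Q), InDeg Q n p φ → Ψ φ ∈ Q.gr p

/-- The map `Ψ` is a map of `Q`-modules. -/
def PsiMod (Q : CDGA) (n : ℤ) (Ψ : Fn Q →ₗ[ℚ] Q.C) : Prop :=
  ∀ (p i : ℤ) (φ : Fn Q) (q : Q.C), InDeg Q n p φ → q ∈ Q.gr i → Ψ (act φ q) = Ψ φ * q

/-- The map `Ψ` commutes with the differentials; the differential of `φ` of degree `p` in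
`s^{-n} # Q` is `-(-1)^p φ ∘ d`. -/
def PsiDiff (Q : CDGA) (n : ℤ) (Ψ : Fn Q →ₗ[ℚ] Q.C) : Prop :=
  ∀ (p : ℤ) (φ : Fn Q), InDeg Q n p φ → Ψ (-(sg p • dd φ)) = Q.d (Ψ φ)

/-- The map `Ψ` is balanced: `Ψ(x) y = x Ψ(y)`, where `q φ = (-1)^{|q||φ|} φ q`. -/
def PsiBal (Q : CDGA) (n : ℤ) (Ψ : Fn Q →ₗ[ℚ] Q.C) : Prop :=
  ∀ (p r : ℤ) (x y : Fn Q), InDeg Q n p x → InDeg Q n r y →
    sg (p * r) • act y (Ψ x) = act x (Ψ y)

/-- A balanced morphism of `Q`-dg-modules `Ψ : s^{-n} # Q → Q`. (Only the values of `Ψ` on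
homogeneous functionals matter.) -/
structure Balanced (Q : CDGA) (n : ℤ) where
  /-- the morphism -/
  Ψ : Fn Q →ₗ[ℚ] Q.C
  psiDeg : PsiDeg Q n Ψ
  psiMod : PsiMod Q n Ψ
  psiDiff : PsiDiff Q n Ψ
  psiBal : PsiBal Q n Ψ

/-- `T^p` is the direct sum of `Q^p` and of `(s s^{-n} # Q)^p = hom(Q^{n-1-p}, ℚ)`, embedded
by `j` and `τ`. -/
def ConeDec (Q : CDGA) (n : ℤ) (T : CDGA) (j : Hom Q T) (τ : Fn Q →ₗ[ℚ] T.C) : Prop :=
  (∀ (p : ℤ) (φ : Fn Q), InDeg Q (n - 1) p φ → τ φ ∈ T.gr p) ∧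
  ∀ (p : ℤ) (t : T.C), t ∈ T.gr p → ∃! z : Q.C × Fn Q,
    z.1 ∈ Q.gr p ∧ InDeg Q (n - 1) p z.2 ∧ t = j.f z.1 + τ z.2

/-- The differential of the cone: `δ(s φ) = Ψ(φ) - s dφ`. -/
def ConeDiff (Q : CDGA) (n : ℤ) (Ψ : Balanced Q n) (T : CDGA) (j : Hom Q T)
    (τ : Fn Q →ₗ[ℚ] T.C) : Prop :=
  ∀ (p : ℤ) (φ : Fn Q), InDeg Q (n - 1) p φ →
    T.d (τ φ) = j.f (Ψ.Ψ φ) - sg p • τ (dd φ)

/-- The product of the cone: `(s φ) q = s (φ q)` and `(s φ)(s φ') = 0`. -/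
def ConeMul (Q : CDGA) (n : ℤ) (T : CDGA) (j : Hom Q T) (τ : Fn Q →ₗ[ℚ] T.C) : Prop :=
  (∀ (p i : ℤ) (φ : Fn Q) (q : Q.C), InDeg Q (n - 1) p φ → q ∈ Q.gr i →
    τ φ * j.f q = τ (act φ q)) ∧
  ∀ (p r : ℤ) (φ ψ : Fn Q), InDeg Q (n - 1) p φ → InDeg Q (n - 1) r ψ → τ φ * τ ψ = 0

/-- `T` is the semi-trivial mapping cone `Q ⊕_Ψ s s^{-n} # Q`, where `j : Q → T` and
`τ : # Q → T` are the embeddings of the summands. -/
structure IsCone (Q : CDGA) (n : ℤ) (Ψ : Balanced Q n) (T : CDGA) (j : Hom Q T)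
    (τ : Fn Q →ₗ[ℚ] T.C) : Prop where
  dec : ConeDec Q n T j τ
  diff : ConeDiff Q n Ψ T j τ
  mul : ConeMul Q n T j τ

/-- `T` is a semi-trivial mapping cone `Q ⊕_Ψ s s^{-n} # Q` for some CDGA `Q` and some balanced
morphism `Ψ : s^{-n} # Q → Q`. -/
def IsSemiTrivialCone (n : ℤ) (T : CDGA) : Prop :=
  ∃ (Q : CDGA) (Ψ : Balanced Q n) (j : Hom Q T) (τ : Fn Q →ₗ[ℚ] T.C), IsCone Q n Ψ T j τ

end Pool.Agent.V11212.PM
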