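import Mathlib
import Pool.Agent.V11212.PM.Defs

/-!
# Basic facts on CDGAs
-/

set_option autoImplicit false

namespace Pool.Agent.V11212.PM

lemma sg_mul_self (k : ℤ) : sg k * sg k = 1 := by
  unfold sg
  split_ifs <;> norm_num

lemma sg_ne (k : ℤ) : sg k ≠ 0 := by
  unfold sg
  split_ifs <;> norm_num

lemma sg_even {k : ℤ} (h : Even k) : sg k = 1 := if_pos h

namespace CDGA

variable (A : CDGA)

/-- the decomposition as a linear equivalence -/
noncomputable def dec : (DirectSum ℤ fun i => A.gr i) ≃ₗ[ℚ] A.C :=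
  LinearEquiv.ofBijective (DirectSum.coeLinearMap A.gr) A.internal

/-- the projection to the homogeneous part of degree `i` -/
noncomputable def pr (i : ℤ) : A.C →ₗ[ℚ] A.C :=
  (A.gr i).subtype ∘ₗ DirectSum.component ℚ ℤ (fun i => A.gr i) i ∘ₗ A.dec.symm.toLinearMap

lemma pr_mem (i : ℤ) (x : A.C) : A.pr i x ∈ A.gr i :=
  (DirectSum.component ℚ ℤ (fun i => A.gr i) i (A.dec.symm x)).2

lemma dec_symm_of {j : ℤ} {x : A.C} (hx : x ∈ A.gr j) :
    A.dec.symm x = DirectSum.lof ℚ ℤ (fun i => A.gr i) j ⟨x, hx⟩ := by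
  rw [LinearEquiv.symm_apply_eq]
  change x = DirectSum.coeLinearMap A.gr _
  rw [DirectSum.coeLinearMap_lof]

lemma pr_of_mem {i : ℤ} {x : A.C} (hx : x ∈ A.gr i) : A.pr i x = x := by
  change ((DirectSum.component ℚ ℤ (fun i => A.gr i) i (A.dec.symm x) : A.gr i) : A.C) = x
  rw [A.dec_symm_of hx, DirectSum.component.lof_self]

lemma pr_of_ne {i j : ℤ} (hij : j ≠ i) {x : A.C} (hx : x ∈ A.gr j) : A.pr i x = 0 := by
  change ((DirectSum.component ℚ ℤ (fun i => A.gr i) i (A.dec.symm x) : A.gr i) : A.C) = 0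
  rw [A.dec_symm_of hx, DirectSum.component.of, dif_neg hij]
  rfl

lemma induction_gr {p : A.C → Prop} (h0 : p 0) (hadd : ∀ x y, p x → p y → p (x + y))
    (hgr : ∀ i x, x ∈ A.gr i → p x) (x : A.C) : p x := by
  have h : x ∈ ⨆ i, A.gr i := by
    rw [A.internal.submodule_iSup_eq_top]
    trivial
  exact Submodule.iSup_induction A.gr (motive := p) h hgr h0 hadd

lemma ext_gr {V : Type*} [AddCommGroup V] [Module ℚ V] {f g : A.C →ₗ[ℚ] V}
    (h : ∀ i x, x ∈ A.gr i → f x = g x) : f = g := by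
  ext x
  refine A.induction_gr (p := fun x => f x = g x) (by simp) ?_ h x
  intro x y hx hy
  rw [map_add, map_add, hx, hy]

lemma pr_d (i : ℤ) (x : A.C) : A.pr (i + 1) (A.d x) = A.d (A.pr i x) := by
  have h : A.pr (i + 1) ∘ₗ A.d = A.d ∘ₗ A.pr i := by
    apply A.ext_gr
    intro j x hx
    change A.pr (i + 1) (A.d x) = A.d (A.pr i x)
    by_cases hji : j = i
    · subst hji
      rw [A.pr_of_mem (A.d_mem hx), A.pr_of_mem hx]
    · rw [A.pr_of_ne hji hx, A.pr_of_ne (by omega) (A.d_mem hx), map_zero]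
  exact LinearMap.congr_fun h x

lemma d_one : A.d 1 = 0 := by
  have h := A.leibniz (1 : A.C) A.one_mem
  rw [mul_one, mul_one, one_mul, sg_even (by simp), one_smul] at h
  exact left_eq_add.1 h

lemma cyc_add {i : ℤ} {a b : A.C} (ha : A.Cyc i a) (hb : A.Cyc i b) : A.Cyc i (a + b) :=
  ⟨(A.gr i).add_mem ha.1 hb.1, by rw [map_add, ha.2, hb.2, add_zero]⟩

lemma cyc_sub {i : ℤ} {a b : A.C} (ha : A.Cyc i a) (hb : A.Cyc i b) : A.Cyc i (a - b) :=
  ⟨(A.gr i).sub_mem ha.1 hb.1, by rw [map_sub, ha.2, hb.2, sub_zero]⟩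

lemma cyc_smul {i : ℤ} {a : A.C} (c : ℚ) (ha : A.Cyc i a) : A.Cyc i (c • a) :=
  ⟨(A.gr i).smul_mem c ha.1, by rw [map_smul, ha.2, smul_zero]⟩

lemma cyc_one : A.Cyc 0 1 := ⟨A.one_mem, A.d_one⟩

lemma cyc_mul {i j : ℤ} {a b : A.C} (ha : A.Cyc i a) (hb : A.Cyc j b) :
    A.Cyc (i + j) (a * b) :=
  ⟨A.mul_mem ha.1 hb.1, by rw [A.leibniz b ha.1, ha.2, hb.2]; simp⟩

lemma bd_add {i : ℤ} {a b : A.C} (ha : A.IsBd i a) (hb : A.IsBd i b) : A.IsBd i (a + b) := by
  obtain ⟨x, hx, rfl⟩ := ha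
  obtain ⟨y, hy, rfl⟩ := hb
  exact ⟨x + y, (A.gr _).add_mem hx hy, map_add _ _ _⟩

lemma bd_sub {i : ℤ} {a b : A.C} (ha : A.IsBd i a) (hb : A.IsBd i b) : A.IsBd i (a - b) := by
  obtain ⟨x, hx, rfl⟩ := ha
  obtain ⟨y, hy, rfl⟩ := hb
  exact ⟨x - y, (A.gr _).sub_mem hx hy, map_sub _ _ _⟩

lemma bd_smul {i : ℤ} {a : A.C} (c : ℚ) (ha : A.IsBd i a) : A.IsBd i (c • a) := by
  obtain ⟨x, hx, rfl⟩ := ha
  exact ⟨c • x, (A.gr _).smul_mem c hx, map_smul _ _ _⟩

lemma bd_zero (i : ℤ) : A.IsBd i 0 := ⟨0, (A.gr _).zero_mem, map_zero _⟩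

lemma bd_cyc {i : ℤ} {a : A.C} (ha : A.IsBd i a) : A.Cyc i a := by
  obtain ⟨x, hx, rfl⟩ := ha
  refine ⟨?_, A.d_d x⟩
  have := A.d_mem hx
  rwa [sub_add_cancel] at this

lemma bd_mul {i j : ℤ} {a b : A.C} (ha : A.IsBd i a) (hb : A.Cyc j b) :
    A.IsBd (i + j) (a * b) := by
  obtain ⟨x, hx, rfl⟩ := ha
  refine ⟨x * b, ?_, ?_⟩
  · have := A.mul_mem hx hb.1
    rwa [show i + j - 1 = i - 1 + j by ring]
  · rw [A.leibniz b hx, hb.2]
    simp

lemma mul_bd {i j : ℤ} {a b : A.C} (ha : A.Cyc i a) (hb : A.IsBd j b) :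
    A.IsBd (i + j) (a * b) := by
  obtain ⟨x, hx, rfl⟩ := hb
  refine ⟨sg i • (a * x), ?_, ?_⟩
  · have := A.mul_mem ha.1 hx
    rw [show i + j - 1 = i + (j - 1) by ring]
    exact (A.gr _).smul_mem _ this
  · rw [map_smul, A.leibniz x ha.1, ha.2, zero_mul, zero_add, smul_smul, sg_mul_self, one_smul]

end CDGA

lemma Hom.map_cyc {A B : CDGA} (f : Hom A B) {i : ℤ} {a : A.C} (ha : A.Cyc i a) :
    B.Cyc i (f.f a) :=
  ⟨f.map_gr ha.1, by rw [← f.map_d, ha.2, map_zero]⟩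

lemma Hom.map_bd {A B : CDGA} (f : Hom A B) {i : ℤ} {a : A.C} (ha : A.IsBd i a) :
    B.IsBd i (f.f a) := by
  obtain ⟨x, hx, rfl⟩ := ha
  exact ⟨f.f x, f.map_gr hx, (f.map_d x).symm⟩

/-- The properties of the homology which are used. -/
structure Good (T : CDGA) (k : ℤ) : Prop where
  one : ¬ T.IsBd 0 1
  aniso : ∀ a, T.Cyc (2 * k) a → T.IsBd (4 * k) (a * a) → T.IsBd (2 * k) a
  mid : ∃ a, T.Cyc (2 * k) a ∧ ¬ T.IsBd (2 * k) a
  top : ∀ a b, T.Cyc (4 * k) a → T.Cyc (4 * k) b →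
    ∃ s t : ℚ, (s ≠ 0 ∨ t ≠ 0) ∧ T.IsBd (4 * k) (s • a + t • b)

lemma good_forward {A B : CDGA} (f : Hom A B) (hf : f.IsQuasiIso) {k : ℤ} (hA : Good A k) :
    Good B k where
  one := by
    intro h
    refine hA.one ((hf 0).1 1 A.cyc_one ?_)
    rw [map_one]
    exact h
  aniso := by
    intro b hb hbb
    obtain ⟨a, ha, hab⟩ := (hf _).2 b hb
    have hfa := f.map_cyc ha
    have h1 : B.IsBd (4 * k) (f.f a * f.f a) := by
      have e : f.f a * f.f a = b * b - (b - f.f a) * b - f.f a * (b - f.f a) := by noncomm_ring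
      rw [e]
      have h2 := B.bd_mul hab hb
      have h3 := B.mul_bd hfa hab
      rw [show 2 * k + 2 * k = 4 * k by ring] at h2 h3
      exact B.bd_sub (B.bd_sub hbb h2) h3
    have h4 : A.IsBd (4 * k) (a * a) := by
      have hc := A.cyc_mul ha ha
      rw [show 2 * k + 2 * k = 4 * k by ring] at hc
      refine (hf _).1 _ hc ?_
      rw [map_mul]
      exact h1
    have h5 := f.map_bd (hA.aniso a ha h4)
    have e : b = (b - f.f a) + f.f a := by abel
    rw [e]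
    exact B.bd_add hab h5
  mid := by
    obtain ⟨a, ha, hna⟩ := hA.mid
    exact ⟨f.f a, f.map_cyc ha, fun h => hna ((hf _).1 a ha h)⟩
  top := by
    intro b b' hb hb'
    obtain ⟨a, ha, hab⟩ := (hf _).2 b hb
    obtain ⟨a', ha', hab'⟩ := (hf _).2 b' hb'
    obtain ⟨s, t, hst, hbd⟩ := hA.top a a' ha ha'
    refine ⟨s, t, hst, ?_⟩
    have h1 := f.map_bd hbd
    rw [map_add, map_smul, map_smul] at h1
    have e : s • b + t • b' = s • (b - f.f a) + t • (b' - f.f a') +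
        (s • f.f a + t • f.f a') := by
      simp only [smul_sub]
      abel
    rw [e]
    exact B.bd_add (B.bd_add (B.bd_smul s hab) (B.bd_smul t hab')) h1

lemma good_backward {A B : CDGA} (f : Hom A B) (hf : f.IsQuasiIso) {k : ℤ} (hB : Good B k) :
    Good A k where
  one := by
    intro h
    refine hB.one ?_
    have := f.map_bd h
    rwa [map_one] at this
  aniso := by
    intro a ha haa
    refine (hf _).1 a ha (hB.aniso _ (f.map_cyc ha) ?_)
    have := f.map_bd haa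
    rwa [map_mul] at this
  mid := by
    obtain ⟨b, hb, hnb⟩ := hB.mid
    obtain ⟨a, ha, hab⟩ := (hf _).2 b hb
    refine ⟨a, ha, fun h => hnb ?_⟩
    have e : b = (b - f.f a) + f.f a := by abel
    rw [e]
    exact B.bd_add hab (f.map_bd h)
  top := by
    intro a a' ha ha'
    obtain ⟨s, t, hst, hbd⟩ := hB.top _ _ (f.map_cyc ha) (f.map_cyc ha')
    refine ⟨s, t, hst, (hf _).1 _ (A.cyc_add (A.cyc_smul s ha) (A.cyc_smul t ha')) ?_⟩
    rw [map_add, map_smul, map_smul]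
    exact hbd

lemma good_iff {A B : CDGA} (h : QuasiIsomorphic A B) {k : ℤ} : Good A k ↔ Good B k := by
  induction h with
  | rel A B h =>
    obtain ⟨f, hf⟩ := h
    exact ⟨good_forward f hf, good_backward f hf⟩
  | refl A => exact Iff.rfl
  | symm A B _ ih => exact ih.symm
  | trans A B C _ _ ih1 ih2 => exact ih1.trans ih2

end Pool.Agent.V11212.PM
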