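import Mathlib
import Pool.Agent.V11212.PM.Basic

/-!
# The middle homology of a semi-trivial mapping cone has isotropic vectors
-/

set_option autoImplicit false

namespace Pool.Agent.V11212.PM

/-- The degree `p` part of `s^{-n} # Q`: the functionals supported on `Q^{n-p}`. -/
def dl (Q : CDGA) (n p : ℤ) : Submodule ℚ (Module.Dual ℚ Q.C) where
  carrier := {φ | ∀ i, i ≠ n - p → ∀ x ∈ Q.gr i, φ x = 0}
  add_mem' := by
    intro a b ha hb i hi x hx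
    rw [LinearMap.add_apply, ha i hi x hx, hb i hi x hx, add_zero]
  zero_mem' := fun _ _ _ _ => rfl
  smul_mem' := by
    intro c a ha i hi x hx
    rw [LinearMap.smul_apply, ha i hi x hx, smul_zero]

/-- The right action of `Q` on functionals, `(φ q)(x) = φ(q x)`. -/
def act0 {Q : CDGA} (φ : Module.Dual ℚ Q.C) (q : Q.C) : Module.Dual ℚ Q.C :=
  φ ∘ₗ LinearMap.mulLeft ℚ q

/-- The functional `x ↦ φ(d x)`. -/
def dd0 {Q : CDGA} (φ : Module.Dual ℚ Q.C) : Module.Dual ℚ Q.C := φ ∘ₗ Q.d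

/-- A balanced morphism, in terms of linear functionals. -/
structure Balanced0 (Q : CDGA) (n : ℤ) where
  /-- the morphism -/
  Ψ : Module.Dual ℚ Q.C →ₗ[ℚ] Q.C
  map_gr : ∀ {p : ℤ} {φ : Module.Dual ℚ Q.C}, φ ∈ dl Q n p → Ψ φ ∈ Q.gr p
  map_d : ∀ {p : ℤ} {φ : Module.Dual ℚ Q.C}, φ ∈ dl Q n p → Ψ (-(sg p • dd0 φ)) = Q.d (Ψ φ)

/-- The cone, in terms of linear functionals. -/
structure IsCone0 (Q : CDGA) (n : ℤ) (Ψ : Balanced0 Q n) (T : CDGA) (j : Hom Q T)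
    (τ : Module.Dual ℚ Q.C →ₗ[ℚ] T.C) : Prop where
  gr_τ : ∀ {p : ℤ} {φ : Module.Dual ℚ Q.C}, φ ∈ dl Q (n - 1) p → τ φ ∈ T.gr p
  decomp : ∀ (p : ℤ) (t : T.C), t ∈ T.gr p → ∃! z : Q.C × Module.Dual ℚ Q.C,
    z.1 ∈ Q.gr p ∧ z.2 ∈ dl Q (n - 1) p ∧ t = j.f z.1 + τ z.2
  d_τ : ∀ {p : ℤ} {φ : Module.Dual ℚ Q.C}, φ ∈ dl Q (n - 1) p →
    T.d (τ φ) = j.f (Ψ.Ψ φ) - sg p • τ (dd0 φ)
  τ_mul : ∀ {p i : ℤ} {φ : Module.Dual ℚ Q.C} {q : Q.C}, φ ∈ dl Q (n - 1) p → q ∈ Q.gr i →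
    τ φ * j.f q = τ (act0 φ q)

/-- translation -/
def Balanced.old {Q : CDGA} {n : ℤ} (Ψ : Balanced Q n) : Balanced0 Q n where
  Ψ := Ψ.Ψ
  map_gr := fun {p φ} h => Ψ.psiDeg p φ h
  map_d := fun {p φ} h => Ψ.psiDiff p φ h

lemma IsCone.old {Q : CDGA} {n : ℤ} {Ψ : Balanced Q n} {T : CDGA} {j : Hom Q T}
    {τ : Fn Q →ₗ[ℚ] T.C} (h : IsCone Q n Ψ T j τ) : IsCone0 Q n Ψ.old T j τ where
  gr_τ := fun {p φ} hφ => h.dec.1 p φ hφ
  decomp := fun p t ht => h.dec.2 p t ht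
  d_τ := fun {p φ} hφ => h.diff p φ hφ
  τ_mul := fun {p i φ q} hφ hq => h.mul.1 p i φ q hφ hq

section

variable {Q : CDGA} {m : ℤ}

lemma dl_succ (p : ℤ) : dl Q (m + 1) (p + 1) = dl Q m p := by
  ext φ
  change (∀ i, i ≠ m + 1 - (p + 1) → _) ↔ (∀ i, i ≠ m - p → _)
  rw [show m + 1 - (p + 1) = m - p by ring]

lemma dd_mem {p : ℤ} {ν : Module.Dual ℚ Q.C} (hν : ν ∈ dl Q m p) : dd0 ν ∈ dl Q m (p + 1) := by
  intro i hi x hx
  exact hν (i + 1) (by omega) _ (Q.d_mem hx)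

lemma act_mem {p i : ℤ} {ν : Module.Dual ℚ Q.C} {q : Q.C} (hν : ν ∈ dl Q m p)
    (hq : q ∈ Q.gr i) : act0 ν q ∈ dl Q m (p + i) := by
  intro j hj x hx
  exact hν (i + j) (by omega) _ (Q.mul_mem hq hx)

/-- a functional vanishing on the cycles is a coboundary -/
lemma fact1 {p : ℤ} {ν : Module.Dual ℚ Q.C} (hν : ν ∈ dl Q m p)
    (h : ∀ x, Q.Cyc (m - p) x → ν x = 0) : ∃ ν' ∈ dl Q m (p - 1), dd0 ν' = ν := by
  have hker : ν ∈ (LinearMap.ker Q.d).dualAnnihilator := by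
    rw [Submodule.mem_dualAnnihilator]
    intro x hx
    rw [LinearMap.mem_ker] at hx
    have h1 : Q.Cyc (m - p) (Q.pr (m - p) x) := by
      refine ⟨Q.pr_mem _ _, ?_⟩
      rw [← Q.pr_d, hx, map_zero]
    have h2 : ν = ν ∘ₗ Q.pr (m - p) := by
      apply Q.ext_gr
      intro i x hx
      change ν x = ν (Q.pr (m - p) x)
      by_cases hi : i = m - p
      · subst hi
        rw [Q.pr_of_mem hx]
      · rw [hν i hi x hx, Q.pr_of_ne hi hx, map_zero]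
    rw [h2]
    exact h _ h1
  rw [← LinearMap.range_dualMap_eq_dualAnnihilator_ker] at hker
  obtain ⟨μ, hμ⟩ := hker
  refine ⟨μ ∘ₗ Q.pr (m - p + 1), ?_, ?_⟩
  · intro i hi x hx
    change μ (Q.pr (m - p + 1) x) = 0
    rw [Q.pr_of_ne (by omega) hx, map_zero]
  · apply Q.ext_gr
    intro i x hx
    change μ (Q.pr (m - p + 1) (Q.d x)) = ν x
    rw [Q.pr_d]
    have h3 : ∀ y, μ (Q.d y) = ν y := fun y => LinearMap.congr_fun hμ y
    rw [h3]
    by_cases hi : i = m - p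
    · subst hi
      rw [Q.pr_of_mem hx]
    · rw [hν i hi x hx, Q.pr_of_ne hi hx, map_zero]

variable {Ψ : Balanced0 Q (m + 1)} {T : CDGA} {j : Hom Q T} {τ : Module.Dual ℚ Q.C →ₗ[ℚ] T.C}
  (h : IsCone0 Q (m + 1) Ψ T j τ)
include h

lemma cone_dec {p : ℤ} {t : T.C} (ht : t ∈ T.gr p) :
    ∃ q ∈ Q.gr p, ∃ ν ∈ dl Q m p, t = j.f q + τ ν := by
  obtain ⟨z, ⟨h1, h2, h3⟩, -⟩ := h.decomp p t ht
  rw [add_sub_cancel_right] at h2
  exact ⟨z.1, h1, z.2, h2, h3⟩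

lemma cone_τ {p : ℤ} {ν : Module.Dual ℚ Q.C} (hν : ν ∈ dl Q m p) : τ ν ∈ T.gr p := by
  apply h.gr_τ
  rwa [add_sub_cancel_right]

lemma cone_uniq {p : ℤ} {q q' : Q.C} {ν ν' : Module.Dual ℚ Q.C} (hq : q ∈ Q.gr p)
    (hq' : q' ∈ Q.gr p) (hν : ν ∈ dl Q m p) (hν' : ν' ∈ dl Q m p)
    (e : j.f q + τ ν = j.f q' + τ ν') : q = q' ∧ ν = ν' := by
  obtain ⟨z, -, h4⟩ := h.decomp p (j.f q + τ ν)
    ((T.gr p).add_mem (j.map_gr hq) (cone_τ h hν))
  have h5 := h4 (q, ν) ⟨hq, by rwa [add_sub_cancel_right], rfl⟩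
  have h6 := h4 (q', ν') ⟨hq', by rwa [add_sub_cancel_right], e⟩
  rw [← h6] at h5
  exact ⟨congrArg Prod.fst h5, congrArg Prod.snd h5⟩

lemma cone_d {p : ℤ} {q : Q.C} {ν : Module.Dual ℚ Q.C} (hν : ν ∈ dl Q m p) :
    T.d (j.f q + τ ν) = j.f (Q.d q + Ψ.Ψ ν) + τ (-(sg p • dd0 ν)) := by
  rw [map_add, ← j.map_d, h.d_τ (by rwa [add_sub_cancel_right]), map_add, map_neg, map_smul]
  abel

omit h in
lemma cone_Ψ {p : ℤ} {ν : Module.Dual ℚ Q.C} (hν : ν ∈ dl Q m p) : Ψ.Ψ ν ∈ Q.gr (p + 1) := by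
  apply Ψ.map_gr
  rwa [dl_succ]

omit h in
lemma cone_dΨ {p : ℤ} {ν : Module.Dual ℚ Q.C} (hν : ν ∈ dl Q m p) :
    Ψ.Ψ (dd0 ν) = sg p • Q.d (Ψ.Ψ ν) := by
  have h1 := Ψ.map_d (p := p + 1) (φ := ν) (by rwa [dl_succ])
  have h2 : -(sg (p + 1) • dd0 ν) = sg p • dd0 ν := by
    unfold sg
    rcases Int.even_or_odd p with hp | hp
    · rw [if_pos hp, if_neg (by rw [Int.even_add_one]; simpa using hp)]
      simp
    · rw [if_neg (Int.not_even_iff_odd.2 hp), if_pos hp.add_one, one_smul, neg_one_smul]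
  rw [h2, map_smul] at h1
  rw [← h1, smul_smul, sg_mul_self, one_smul]

lemma cone_mul {p i : ℤ} {q q' : Q.C} {ν : Module.Dual ℚ Q.C} (hν : ν ∈ dl Q m p)
    (hq' : q' ∈ Q.gr i) : (j.f q + τ ν) * j.f q' = j.f (q * q') + τ (act0 ν q') := by
  rw [add_mul, map_mul, h.τ_mul (by rwa [add_sub_cancel_right]) hq']

/-- the two equations for a cycle -/
lemma cone_cyc {p : ℤ} {q : Q.C} {ν : Module.Dual ℚ Q.C} (hq : q ∈ Q.gr p) (hν : ν ∈ dl Q m p)
    (hc : T.d (j.f q + τ ν) = 0) : Q.d q + Ψ.Ψ ν = 0 ∧ dd0 ν = 0 := by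
  rw [cone_d h hν] at hc
  have h1 := cone_uniq h (p := p + 1) (q := Q.d q + Ψ.Ψ ν) (q' := 0) (ν := -(sg p • dd0 ν))
    (ν' := 0) ((Q.gr _).add_mem (Q.d_mem hq) (cone_Ψ hν)) (Q.gr _).zero_mem
    ((dl Q m _).neg_mem ((dl Q m _).smul_mem _ (dd_mem hν))) (dl Q m _).zero_mem
    (by rw [hc]; simp)
  refine ⟨h1.1, ?_⟩
  have h2 := neg_eq_zero.1 h1.2
  exact (smul_eq_zero.1 h2).resolve_left (sg_ne p)

/-- the functional part of a boundary vanishes at `1` -/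
lemma cone_eval {q : Q.C} {ν : Module.Dual ℚ Q.C} (hq : q ∈ Q.gr m) (hν : ν ∈ dl Q m m)
    (hb : T.IsBd m (j.f q + τ ν)) : ν 1 = 0 := by
  obtain ⟨t, ht, hdt⟩ := hb
  obtain ⟨q', hq', ν', hν', rfl⟩ := cone_dec h ht
  rw [cone_d h hν'] at hdt
  have hm : m - 1 + 1 = m := by ring
  have h1 := cone_uniq h (p := m) (q := Q.d q' + Ψ.Ψ ν') (q' := q)
    (ν := -(sg (m - 1) • dd0 ν')) (ν' := ν)
    (by have := (Q.gr _).add_mem (Q.d_mem hq') (cone_Ψ (Ψ := Ψ) hν'); rwa [hm] at this) hq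
    (by
      have := (dl Q m _).neg_mem ((dl Q m _).smul_mem (sg (m - 1)) (dd_mem hν'))
      rwa [hm] at this) hν hdt
  rw [← h1.2]
  change -(sg (m - 1) • ν' (Q.d 1)) = 0
  rw [Q.d_one, map_zero, smul_zero, neg_zero]

/-- a cycle whose functional part vanishes on the cycles comes from `Q` -/
lemma cone_fact {p : ℤ} {q : Q.C} {ν : Module.Dual ℚ Q.C} (hq : q ∈ Q.gr p)
    (hν : ν ∈ dl Q m p) (hc : T.d (j.f q + τ ν) = 0) (hv : ∀ x, Q.Cyc (m - p) x → ν x = 0) :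
    ∃ q', Q.Cyc p q' ∧ T.IsBd p (j.f q + τ ν - j.f q') := by
  obtain ⟨ν', hν', rfl⟩ := fact1 hν hv
  have hp : p - 1 + 1 = p := by ring
  have h1 : T.d (τ (-(sg (p - 1)) • ν')) = j.f (Ψ.Ψ (-(sg (p - 1)) • ν')) + τ (dd0 ν') := by
    have h2 := cone_d h (p := p - 1) (q := 0) (ν := -(sg (p - 1)) • ν')
      ((dl Q m _).smul_mem _ hν')
    rw [map_zero, zero_add, map_zero, zero_add] at h2
    rw [h2]
    congr 2
    change -(sg (p - 1) • ((-(sg (p - 1)) • ν') ∘ₗ Q.d)) = ν' ∘ₗ Q.d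
    rw [LinearMap.smul_comp, neg_smul, smul_neg, neg_neg, smul_smul, sg_mul_self, one_smul]
  have hΨ : Ψ.Ψ (-(sg (p - 1)) • ν') ∈ Q.gr p := by
    have := cone_Ψ (Ψ := Ψ) ((dl Q m _).smul_mem (-(sg (p - 1))) hν')
    rwa [hp] at this
  have hbd : T.IsBd p (j.f q + τ (dd0 ν') - j.f (q - Ψ.Ψ (-(sg (p - 1)) • ν'))) := by
    refine ⟨τ (-(sg (p - 1)) • ν'), cone_τ h ((dl Q m _).smul_mem _ hν'), ?_⟩
    rw [h1, map_sub]
    abel
  refine ⟨q - Ψ.Ψ (-(sg (p - 1)) • ν'), ⟨(Q.gr p).sub_mem hq hΨ, ?_⟩, hbd⟩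
  have h3 := (T.bd_cyc hbd).2
  rw [map_sub, hc, zero_sub, neg_eq_zero, ← j.map_d] at h3
  have h4 := cone_uniq h (p := p + 1) (q := Q.d (q - Ψ.Ψ (-(sg (p - 1)) • ν'))) (q' := 0)
    (ν := 0) (ν' := 0) (Q.d_mem ((Q.gr p).sub_mem hq hΨ)) (Q.gr _).zero_mem
    (dl Q m _).zero_mem (dl Q m _).zero_mem (by rw [h3]; simp)
  exact h4.1

end

/-! ### The homology of `Q` -/

section homology

variable (Q : CDGA)

/-- cycles -/
def Z (i : ℤ) : Submodule ℚ Q.C := Q.gr i ⊓ LinearMap.ker Q.d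

/-- boundaries, inside the cycles -/
def B (i : ℤ) : Submodule ℚ (Z Q i) := ((Q.gr (i - 1)).map Q.d).comap (Z Q i).subtype

/-- homology -/
abbrev V (i : ℤ) : Type := Z Q i ⧸ B Q i

lemma mem_Z {i : ℤ} {x : Q.C} : x ∈ Z Q i ↔ Q.Cyc i x := Iff.rfl

lemma mk_eq_zero {i : ℤ} (x : Z Q i) : (B Q i).mkQ x = 0 ↔ Q.IsBd i x.1 := by
  rw [Submodule.mkQ_apply, Submodule.Quotient.mk_eq_zero]
  rfl

/-- a linear projection onto the cycles -/
noncomputable def projZ (i : ℤ) : Q.C →ₗ[ℚ] Z Q i :=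
  Classical.choose
    ((Z Q i).subtype.exists_leftInverse_of_injective (Submodule.ker_subtype (Z Q i)))

lemma projZ_apply {i : ℤ} (x : Z Q i) : projZ Q i x.1 = x :=
  LinearMap.congr_fun
    (Classical.choose_spec ((Z Q i).subtype.exists_leftInverse_of_injective
      (Submodule.ker_subtype (Z Q i)))) x

/-- extension of functionals on the homology -/
noncomputable def ex (i : ℤ) : Module.Dual ℚ (V Q i) →ₗ[ℚ] Module.Dual ℚ Q.C :=
  LinearMap.dualMap ((B Q i).mkQ ∘ₗ projZ Q i ∘ₗ Q.pr i)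

lemma ex_apply {i : ℤ} (l : Module.Dual ℚ (V Q i)) (x : Z Q i) :
    ex Q i l x.1 = l ((B Q i).mkQ x) := by
  change l ((B Q i).mkQ (projZ Q i (Q.pr i x.1))) = _
  rw [Q.pr_of_mem x.2.1, projZ_apply]

lemma ex_mem {i : ℤ} (l : Module.Dual ℚ (V Q i)) {n p : ℤ} (hi : n - p = i) :
    ex Q i l ∈ dl Q n p := by
  intro i' hi' x hx
  change l ((B Q i).mkQ (projZ Q i (Q.pr i x))) = 0
  rw [Q.pr_of_ne (by omega) hx, map_zero, map_zero, map_zero]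

lemma ex_dd {i : ℤ} (l : Module.Dual ℚ (V Q i)) : dd0 (ex Q i l) = 0 := by
  apply Q.ext_gr
  intro i' x hx
  change ex Q i l (Q.d x) = 0
  by_cases h : i' + 1 = i
  · subst h
    have hz : Q.d x ∈ Z Q (i' + 1) := ⟨Q.d_mem hx, Q.d_d x⟩
    rw [ex_apply Q l ⟨Q.d x, hz⟩]
    have : (B Q (i' + 1)).mkQ ⟨Q.d x, hz⟩ = 0 := by
      rw [mk_eq_zero]
      exact ⟨x, by rwa [add_sub_cancel_right], rfl⟩
    rw [this, map_zero]
  · exact ex_mem Q l (n := i) (p := 0) (by ring) (i' + 1) (by omega) _ (Q.d_mem hx)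

end homology

section

variable {Q : CDGA} {m : ℤ} {Ψ : Balanced0 Q (m + 1)} {T : CDGA} {j : Hom Q T}
  {τ : Module.Dual ℚ Q.C →ₗ[ℚ] T.C}

/-- the connecting map -/
noncomputable def Th (Ψ : Balanced0 Q (m + 1)) (p i : ℤ) (hi : m + 1 - p = i) :
    Module.Dual ℚ (V Q i) →ₗ[ℚ] V Q p :=
  (B Q p).mkQ ∘ₗ LinearMap.codRestrict (Z Q p) (Ψ.Ψ ∘ₗ ex Q i) (by
    intro l
    have h1 := ex_mem Q l hi
    refine ⟨Ψ.map_gr h1, ?_⟩
    change Q.d (Ψ.Ψ (ex Q i l)) = 0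
    rw [← Ψ.map_d h1, ex_dd]
    simp)

lemma Th_apply (p i : ℤ) (hi : m + 1 - p = i) (l : Module.Dual ℚ (V Q i)) :
    ∃ hz : Ψ.Ψ (ex Q i l) ∈ Z Q p, Th Ψ p i hi l = (B Q p).mkQ ⟨Ψ.Ψ (ex Q i l), hz⟩ :=
  ⟨_, rfl⟩

/-- If all functional parts of top cycles vanish at `1`, the connecting maps are injective. -/
lemma Th_injective (h : IsCone0 Q (m + 1) Ψ T j τ)
    (hall : ∀ q ∈ Q.gr m, ∀ ν ∈ dl Q m m, T.d (j.f q + τ ν) = 0 → ν 1 = 0) (p i : ℤ)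
    (hi : m + 1 - p = i) : Function.Injective (Th Ψ p i hi) := by
  rw [injective_iff_map_eq_zero]
  intro l hl
  obtain ⟨hz, he⟩ := Th_apply (Ψ := Ψ) p i hi l
  rw [he, mk_eq_zero] at hl
  obtain ⟨q, hq, hdq⟩ := hl
  have hν : ex Q i l ∈ dl Q m (p - 1) := ex_mem Q l (by omega)
  have hc : T.d (j.f (-q) + τ (ex Q i l)) = 0 := by
    rw [cone_d h hν, ex_dd, map_neg, hdq]
    simp
  apply LinearMap.ext
  intro v
  obtain ⟨x, rfl⟩ := (B Q i).mkQ_surjective v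
  rw [← ex_apply, LinearMap.zero_apply]
  have hx : x.1 ∈ Q.gr i := x.2.1
  have hxd : Q.d x.1 = 0 := x.2.2
  have hmul := cone_mul h (q := -q) hν hx
  have hdm : T.d (j.f (-q * x.1) + τ (act0 (ex Q i l) x.1)) = 0 := by
    rw [← hmul, T.leibniz (i := p - 1) _ ((T.gr _).add_mem (j.map_gr ((Q.gr _).neg_mem hq))
      (cone_τ h hν)), hc, ← j.map_d, hxd]
    simp
  have h1 := hall (-q * x.1)
    (by
      have := Q.mul_mem ((Q.gr _).neg_mem hq) hx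
      rwa [show p - 1 + i = m by omega] at this)
    (act0 (ex Q i l) x.1)
    (by
      have := act_mem hν hx
      rwa [show p - 1 + i = m by omega] at this) hdm
  change ex Q i l (x.1 * 1) = 0 at h1
  rwa [mul_one] at h1

lemma top_ne_zero (h : IsCone0 Q (m + 1) Ψ T j τ) (h1 : ¬ T.IsBd 0 1) :
    ∃ q ∈ Q.gr m, ∃ ν ∈ dl Q m m, T.d (j.f q + τ ν) = 0 ∧ ν 1 ≠ 0 := by
  by_contra hcon
  push Not at hcon
  have i0 := Th_injective h hcon 0 (m + 1) (by ring)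
  have i1 := Th_injective h hcon (m + 1) 0 (by ring)
  have r0 : Module.rank ℚ (Module.Dual ℚ (V Q (m + 1))) ≤ Module.rank ℚ (V Q 0) :=
    LinearMap.rank_le_of_injective _ i0
  have r1 : Module.rank ℚ (Module.Dual ℚ (V Q 0)) ≤ Module.rank ℚ (V Q (m + 1)) :=
    LinearMap.rank_le_of_injective _ i1
  rcases lt_or_ge (Module.rank ℚ (V Q 0)) Cardinal.aleph0 with hfin | hinf
  · have f0 : FiniteDimensional ℚ (V Q 0) := Module.rank_lt_aleph0_iff.1 hfin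
    have f1' : FiniteDimensional ℚ (Module.Dual ℚ (V Q (m + 1))) :=
      Module.Finite.of_injective _ i0
    have f1 : FiniteDimensional ℚ (V Q (m + 1)) := by
      by_contra hf
      have hinf : Cardinal.aleph0 ≤ Module.rank ℚ (V Q (m + 1)) := by
        by_contra h2
        exact hf (Module.rank_lt_aleph0_iff.1 (not_le.1 h2))
      have h2 := rank_lt_rank_dual hinf
      have h3 : Module.rank ℚ (Module.Dual ℚ (V Q (m + 1))) < Cardinal.aleph0 :=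
        Module.rank_lt_aleph0_iff.2 f1'
      exact absurd (hinf.trans h2.le) (not_le.2 h3)
    have e0 : Module.finrank ℚ (Module.Dual ℚ (V Q (m + 1))) =
        Module.finrank ℚ (V Q (m + 1)) := Subspace.dual_finrank_eq
    have e1 : Module.finrank ℚ (Module.Dual ℚ (V Q 0)) =
        Module.finrank ℚ (V Q 0) := Subspace.dual_finrank_eq
    have l0 := LinearMap.finrank_le_finrank_of_injective i0
    have l1 := LinearMap.finrank_le_finrank_of_injective i1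
    have hsurj : Function.Surjective (Th Ψ 0 (m + 1) (by ring)) :=
      (LinearMap.injective_iff_surjective_of_finrank_eq_finrank (by omega)).1 i0
    obtain ⟨l, hl⟩ := hsurj ((B Q 0).mkQ ⟨1, Q.cyc_one⟩)
    obtain ⟨hz, he⟩ := Th_apply (Ψ := Ψ) 0 (m + 1) (by ring) l
    rw [he, ← sub_eq_zero, ← map_sub, mk_eq_zero] at hl
    obtain ⟨c, hc, hdc⟩ := hl
    have hdc' : Q.d c = Ψ.Ψ (ex Q (m + 1) l) - 1 := hdc
    have hν : ex Q (m + 1) l ∈ dl Q m (0 - 1) := ex_mem Q l (by ring)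
    apply h1
    refine ⟨j.f (-c) + τ (ex Q (m + 1) l), (T.gr _).add_mem (j.map_gr ((Q.gr _).neg_mem hc))
      (cone_τ h hν), ?_⟩
    rw [cone_d h hν, ex_dd, map_neg, hdc']
    simp
  · have h2 := rank_lt_rank_dual hinf
    have h3 : Cardinal.aleph0 ≤ Module.rank ℚ (V Q (m + 1)) := hinf.trans (h2.le.trans r1)
    have h4 := rank_lt_rank_dual h3
    exact absurd (h4.trans_le (r0.trans (h2.le.trans r1))) (lt_irrefl _)

end

/-- **Key fact.**  A semi-trivial mapping cone cannot have anisotropic middle homology. -/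
theorem not_good0 {Q : CDGA} {k : ℤ} {Ψ : Balanced0 Q (4 * k + 1)} {T : CDGA} {j : Hom Q T}
    {τ : Module.Dual ℚ Q.C →ₗ[ℚ] T.C} (h : IsCone0 Q (4 * k + 1) Ψ T j τ) : ¬ Good T k := by
  intro hg
  obtain ⟨q₁, hq₁, ν₁, hν₁, hc₁, hne⟩ := top_ne_zero h hg.one
  -- cycles of top degree with vanishing value are boundaries
  have htop : ∀ q ∈ Q.gr (4 * k), ∀ ν ∈ dl Q (4 * k) (4 * k), T.d (j.f q + τ ν) = 0 →
      ν 1 = 0 → T.IsBd (4 * k) (j.f q + τ ν) := by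
    intro q hq ν hν hc hv
    have hcy : T.Cyc (4 * k) (j.f q + τ ν) :=
      ⟨(T.gr _).add_mem (j.map_gr hq) (cone_τ h hν), hc⟩
    have hcy₁ : T.Cyc (4 * k) (j.f q₁ + τ ν₁) :=
      ⟨(T.gr _).add_mem (j.map_gr hq₁) (cone_τ h hν₁), hc₁⟩
    obtain ⟨s, t, hst, hbd⟩ := hg.top _ _ hcy hcy₁
    have e : s • (j.f q + τ ν) + t • (j.f q₁ + τ ν₁) =
        j.f (s • q + t • q₁) + τ (s • ν + t • ν₁) := by
      simp only [map_add, map_smul, smul_add]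
      abel
    have hbd' := hbd
    rw [e] at hbd'
    have h1 := cone_eval h ((Q.gr _).add_mem ((Q.gr _).smul_mem s hq) ((Q.gr _).smul_mem t hq₁))
      ((dl Q _ _).add_mem ((dl Q _ _).smul_mem s hν) ((dl Q _ _).smul_mem t hν₁)) hbd'
    have h2 : s * ν 1 + t * ν₁ 1 = 0 := h1
    rw [hv, mul_zero, zero_add] at h2
    have ht : t = 0 := (mul_eq_zero.1 h2).resolve_right hne
    have hs : s ≠ 0 := hst.resolve_right (fun h => h ht)
    rw [ht, zero_smul, add_zero] at hbd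
    have h3 := T.bd_smul s⁻¹ hbd
    rwa [smul_smul, inv_mul_cancel₀ hs, one_smul] at h3
  -- the image of the middle homology of `Q` vanishes
  have hmid : ∀ q, Q.Cyc (2 * k) q → T.IsBd (2 * k) (j.f q) := by
    intro q hq
    refine hg.aniso _ (j.map_cyc hq) ?_
    have hqq := Q.cyc_mul hq hq
    rw [show 2 * k + 2 * k = 4 * k by ring] at hqq
    have h1 := htop (q * q) hqq.1 0 (dl Q _ _).zero_mem
      (by rw [map_zero, add_zero, ← j.map_d, hqq.2, map_zero]) rfl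
    rwa [map_zero, add_zero, map_mul] at h1
  obtain ⟨a, ha, hna⟩ := hg.mid
  obtain ⟨q, hq, ν, hν, rfl⟩ := cone_dec h ha.1
  apply hna
  obtain ⟨q', hq', hbd⟩ := cone_fact h hq hν ha.2 (by
    intro x hx
    rw [show 4 * k - 2 * k = 2 * k by ring] at hx
    have h1 := T.mul_bd ha (hmid x hx)
    rw [show 2 * k + 2 * k = 4 * k by ring, cone_mul h hν hx.1] at h1
    have h2 := cone_eval h
      (by
        have := Q.mul_mem hq hx.1
        rwa [show 2 * k + 2 * k = 4 * k by ring] at this)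
      (by
        have := act_mem hν hx.1
        rwa [show 2 * k + 2 * k = 4 * k by ring] at this) h1
    change ν (x * 1) = 0 at h2
    rwa [mul_one] at h2)
  have h5 := T.bd_add hbd (hmid q' hq')
  rwa [sub_add_cancel] at h5

theorem not_good {T : CDGA} {k : ℤ} (h : IsSemiTrivialCone (4 * k + 1) T) : ¬ Good T k := by
  obtain ⟨Q, Ψ, j, τ, hc⟩ := h
  exact not_good0 hc.old

end Pool.Agent.V11212.PM
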